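import Pool.Agent.H91.TC.Basic

/-! Row FAS of the board `tsc_modules` (problem MP_43af95_an): fast returns give fast returns of the
slice. -/

open Set Function Topology Metric Filter
open scoped Manifold

namespace Pool.Agent.H7.TSC

open Pool.Agent.H88.CL Pool.Agent.H88.CM Pool.Agent.H91.TC

theorem pf_FAS : T_FAS := by
  intro n d k M _ _ _ _ a x κ e r f hA hT hk φ hφ hxφ hfast c hc
  set x0 : E n := φ x with hx0
  have hx0t : x0 ∈ φ.target := φ.map_source hxφ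
  have hsx : φ.symm x0 = x := φ.left_inv hxφ
  let G : E n → E n := fun w => κ (φ.symm w)
  have hG : ContDiffAt ℝ 2 G x0 := by
    rw [← contMDiffAt_iff_contDiffAt]
    have h1 : ContMDiffAt 𝓘(ℝ, E n) 𝓘(ℝ, E n) 2 φ.symm x0 :=
      contMDiffAt_symm_of_mem_maximalAtlas hφ hx0t
    have h3 : ContMDiffAt 𝓘(ℝ, E n) 𝓘(ℝ, E n) 2 κ (φ.symm x0) :=
      contMDiffAt_of_mem_maximalAtlas hT.atl (by rw [hsx]; exact hT.src)
    exact h3.comp x0 h1
  have hGd : HasFDerivAt G (fderiv ℝ G x0) x0 := (hG.differentiableAt (by norm_num)).hasFDerivAt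
  have hHd : HasFDerivAt (fun w => e (G w)) ((e : E n →L[ℝ] E d × E k).comp (fderiv ℝ G x0)) x0 :=
    (e : E n →L[ℝ] E d × E k).hasFDerivAt.comp x0 hGd
  obtain ⟨C0, hC0⟩ := hHd.isBigO_sub.bound
  have he0 : e (G x0) = 0 := by
    change e (κ (φ.symm x0)) = 0
    rw [hsx]; exact hT.org
  set C : ℝ := max C0 1 with hC
  have hCpos : 0 < C := lt_of_lt_of_le one_pos (le_max_right _ _)
  have hcont : ContinuousAt (fun w => φ.symm w) x0 := φ.symm.continuousAt hx0t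
  have hev1 : ∀ᶠ w in 𝓝 x0, φ.symm w ∈ κ.source :=
    hcont.preimage_mem_nhds (κ.open_source.mem_nhds (by rw [hsx]; exact hT.src))
  have hev2 : ∀ᶠ w in 𝓝 x0, ‖w - x0‖ < r / C := by
    have : ∀ᶠ w in 𝓝 x0, dist w x0 < r / C :=
      Metric.eventually_nhds_iff_ball.2 ⟨r / C, div_pos hT.pos hCpos, fun y hy => hy⟩
    simpa only [dist_eq_norm] using this
  obtain ⟨t, ht, hball⟩ := Metric.eventually_nhds_iff_ball.1 (hC0.and (hev1.and hev2))
  have hsC : 0 < (√C) ^ k := pow_pos (Real.sqrt_pos.2 hCpos) k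
  have hst : 0 < (√(t / 2)) ^ k := pow_pos (Real.sqrt_pos.2 (by linarith)) k
  obtain ⟨m, v, hm, hys, hle⟩ := hfast (min (c / (√C) ^ k) ((√(t / 2)) ^ k))
    (lt_min (div_pos hc hsC) hst)
  set y : M := a v (f^[m] x) with hy
  have hm1 : (1 : ℝ) ≤ m := by exact_mod_cast hm
  set D : ℝ := ‖φ y - x0‖ with hD
  have hD0 : 0 ≤ D := norm_nonneg _
  have hDt : D < t := by
    by_contra hcon
    rw [not_lt] at hcon
    have h1 : (√(t / 2)) ^ k < (√t) ^ k :=
      pow_lt_pow_left₀ (Real.sqrt_lt_sqrt (by linarith) (by linarith)) (Real.sqrt_nonneg _)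
        (by omega)
    have h2 : (√t) ^ k ≤ (√D) ^ k :=
      pow_le_pow_left₀ (Real.sqrt_nonneg _) (Real.sqrt_le_sqrt hcon) k
    have h3 : (√D) ^ k ≤ (m : ℝ) * (√D) ^ k :=
      le_mul_of_one_le_left (pow_nonneg (Real.sqrt_nonneg _) k) hm1
    have h4 : (m : ℝ) * (√D) ^ k ≤ (√(t / 2)) ^ k := hle.trans (min_le_right _ _)
    linarith
  have hwb : φ y ∈ ball x0 t := by rw [mem_ball, dist_eq_norm]; exact hDt
  obtain ⟨hb1, hb2, hb3⟩ := hball (φ y) hwb
  have hsy : φ.symm (φ y) = y := φ.left_inv hys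
  rw [hsy] at hb2
  have hGy : e (G (φ y)) = e (κ y) := by
    change e (κ (φ.symm (φ y))) = e (κ y)
    rw [hsy]
  rw [he0, sub_zero, hGy] at hb1
  have hn1 : ‖e (κ y)‖ ≤ C * D :=
    hb1.trans (mul_le_mul_of_nonneg_right (le_max_left _ _) hD0)
  have hn2 : ‖e (κ y)‖ ≤ r := by
    refine hn1.trans ?_
    have h5 : D < r / C := hb3
    rw [lt_div_iff₀ hCpos] at h5
    linarith [mul_comm D C]
  have hu : ‖(e (κ y)).1‖ ≤ r := (norm_fst_le _).trans hn2
  have hv : ‖(e (κ y)).2‖ ≤ r := (norm_snd_le _).trans hn2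
  have hact := hT.act (e (κ y)).1 (e (κ y)).2 hu hv
  have hyy : y = a (e (κ y)).2 (sg κ e (e (κ y)).1) := by
    rw [← hact, Prod.mk.eta, e.symm_apply_apply, κ.left_inv hb2]
  have hκx : κ x = 0 := by
    have := congrArg e.symm hT.org
    rwa [e.symm_apply_apply, map_zero] at this
  have hsg0 : sg κ e 0 = x := by
    have h6 : e.symm ((0 : E d), (0 : E k)) = 0 := by
      rw [← Prod.zero_eq_mk, map_zero]
    rw [sg, h6, ← hκx, κ.left_inv hT.src]
  refine ⟨m, (e (κ y)).1, hm, ⟨by rw [norm_zero]; exact hT.pos.le, hu,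
    -v + (e (κ y)).2, ?_⟩, ?_⟩
  · rw [hsg0, hA.add, ← hyy, hy, ← hA.add, neg_add_cancel, hA.zero]
  · have h7 : √‖(e (κ y)).1‖ ≤ √C * √D := by
      rw [← Real.sqrt_mul hCpos.le]
      exact Real.sqrt_le_sqrt ((norm_fst_le _).trans hn1)
    have h8 : (√‖(e (κ y)).1‖) ^ k ≤ (√C) ^ k * (√D) ^ k := by
      rw [← mul_pow]
      exact pow_le_pow_left₀ (Real.sqrt_nonneg _) h7 k
    have h9 : (m : ℝ) * (√D) ^ k ≤ c / (√C) ^ k := hle.trans (min_le_left _ _)
    rw [le_div_iff₀ hsC] at h9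
    calc (m : ℝ) * (√‖(e (κ y)).1‖) ^ k ≤ m * ((√C) ^ k * (√D) ^ k) :=
          mul_le_mul_of_nonneg_left h8 (by positivity)
      _ = (m : ℝ) * (√D) ^ k * (√C) ^ k := by ring
      _ ≤ c := h9

end Pool.Agent.H7.TSC
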